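import Pool.Agent.Work.MP_91103f_fd.Interface
import Pool.Agent.Work.MP_91103f_co.GB

/-!
# FR6: all six directions occur at every vertex
-/

namespace Pool.TriFold.helper22

open Pool.Agent.Work.MP_91103f_co Pool.TriLev Pool.TriFold

open Classical

/-- discrete intermediate value theorem for walks with steps of absolute value at most one -/
theorem ivt_aux (S : ℕ → ℤ) (h0 : S 0 = 0) (hs : ∀ i, |S (i + 1) - S i| ≤ 1) (n : ℕ) (k : ℤ)
    (hk : 0 ≤ k) (hn : k ≤ S n) : ∃ i ≤ n, S i = k := by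
  induction n with
  | zero => exact ⟨0, le_rfl, by rw [h0] at hn ⊢; omega⟩
  | succ n ih =>
    rcases Int.lt_or_le (S n) k with h1 | h1
    · refine ⟨n + 1, le_rfl, ?_⟩
      have := hs n
      rw [abs_le] at this
      omega
    · obtain ⟨i, hi, he⟩ := ih h1
      exact ⟨i, by omega, he⟩

theorem sum_pm (n : ℕ) (p : ℕ → Prop) :
    ∑ j ∈ Finset.range n, (if p j then (-1 : ℤ) else 1) =
      n - 2 * ((Finset.range n).filter (fun j => p j)).card := by
  induction n with
  | zero => simp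
  | succ n ih =>
    rw [Finset.sum_range_succ, ih, Finset.range_add_one, Finset.filter_insert]
    by_cases h : p n
    · rw [if_pos h, if_pos h, Finset.card_insert_of_notMem (by simp)]
      push_cast
      ring
    · rw [if_neg h, if_neg h]
      push_cast
      ring

theorem z6_cover (a d : ZMod 6) (e : ℤ) (he : e = 1 ∨ e = -1) :
    ∃ k : ℕ, k < 6 ∧ a + (e : ZMod 6) * (k : ZMod 6) = d := by
  rcases he with rfl | rfl
  · refine ⟨(d - a).val, ZMod.val_lt _, ?_⟩
    rw [ZMod.natCast_zmod_val]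
    push_cast
    ring
  · refine ⟨(a - d).val, ZMod.val_lt _, ?_⟩
    rw [ZMod.natCast_zmod_val]
    push_cast
    ring

theorem stmt_FR6 : Stmt_FR6 := by
  intro V G F N hT hC x D hD d
  obtain ⟨a, b, h⟩ := hT.exists_flag x
  obtain ⟨hD1, hD2⟩ := hD
  set n := (G.neighborSet x).ncard with hn
  set σ : ℕ → ℤ := fun i => if ph F x a b i ∈ N then (-1 : ℤ) else 1 with hσ
  have hsg : ∀ i, sg N {x, z F x a b i, z F x a b (i + 1)} = ((σ i : ℤ) : ZMod 6) := by
    intro i
    unfold sg
    simp only [hσ]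
    change (if ph F x a b i ∈ N then (-1 : ZMod 6) else 1) = _
    split_ifs <;> simp
  have hσ2 : ∀ i, σ i * σ i = 1 := by
    intro i
    simp only [hσ]
    split_ifs <;> norm_num
  have hσ1 : ∀ i, |σ i| ≤ 1 := by
    intro i
    simp only [hσ]
    split_ifs <;> norm_num
  -- the sign of the first step
  obtain ⟨s, hs1, hs⟩ : ∃ s : ℤ, (s = 1 ∨ s = -1) ∧ D b - D a = (s : ZMod 6) := by
    rcases hD1 a b h with h1 | h1
    · exact ⟨1, Or.inl rfl, by rw [h1]; simp⟩
    · exact ⟨-1, Or.inr rfl, by rw [h1]; simp⟩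
  set t : ℤ := s * σ 0 with ht
  have hstep : ∀ i, D (z F x a b (i + 1)) - D (z F x a b i) = ((t * σ i : ℤ) : ZMod 6) := by
    intro i
    induction i with
    | zero =>
      rw [ht, mul_assoc, hσ2 0, mul_one, ← hs]
      rfl
    | succ i ih =>
      have h1 := hD2 _ _ _ (hT.z_face h i) (hT.z_face h (i + 1)) (hT.z_ne2 h i).symm
      rw [ih, hsg, hsg] at h1
      have h2 : (D (z F x a b (i + 1 + 1)) - D (z F x a b (i + 1))) *
          (((σ (i + 1) : ℤ) : ZMod 6) * ((σ (i + 1) : ℤ) : ZMod 6)) =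
          ((t * σ i : ℤ) : ZMod 6) * ((σ i : ℤ) : ZMod 6) * ((σ (i + 1) : ℤ) : ZMod 6) := by
        rw [← h1]
        ring
      rw [← Int.cast_mul, hσ2, Int.cast_one, mul_one] at h2
      rw [h2, ← Int.cast_mul, ← Int.cast_mul, mul_assoc t, hσ2, mul_one]
  set S : ℕ → ℤ := fun i => ∑ j ∈ Finset.range i, σ j with hS
  have hS0 : S 0 = 0 := by simp [hS]
  have hSs : ∀ i, S (i + 1) - S i = σ i := by
    intro i
    simp only [hS]
    rw [Finset.sum_range_succ]
    ring
  have hDz : ∀ i, D (z F x a b i) = D a + ((t * S i : ℤ) : ZMod 6) := by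
    intro i
    induction i with
    | zero => rw [hS0]; simp [z_zero]
    | succ i ih =>
      have h1 := hstep i
      rw [sub_eq_iff_eq_add] at h1
      rw [h1, ih]
      have h2 : S (i + 1) = S i + σ i := by rw [← hSs i]; ring
      rw [h2]
      push_cast
      ring
  -- the value after one turn
  obtain ⟨m, hm0, hm⟩ := hC x
  have hcard : {f | f ∈ F ∧ f ∈ N ∧ x ∈ f}.ncard =
      ((Finset.range n).filter (fun k => ph F x a b k ∈ N)).card := by
    rw [← Set.ncard_coe_finset]
    symm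
    apply Set.ncard_congr (fun k _ => ph F x a b k)
    · intro k hk
      rw [Finset.mem_coe, Finset.mem_filter] at hk
      exact ⟨hT.ph_mem h k, hk.2, by simp [ph]⟩
    · intro i j hi hj he
      rw [Finset.mem_coe, Finset.mem_filter, Finset.mem_range] at hi hj
      exact hT.ph_inj h hi.1 hj.1 he
    · intro f hf
      obtain ⟨k, hk, rfl⟩ := hT.ph_surj h hf.1 hf.2.2
      exact ⟨k, by rw [Finset.mem_coe, Finset.mem_filter, Finset.mem_range]; exact ⟨hk, hf.2.1⟩,
        rfl⟩
  have hSn : S n = 6 * m := by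
    simp only [hS, hσ]
    rw [sum_pm, ← hcard]
    exact hm
  have ht1 : t = 1 ∨ t = -1 := by
    have h1 : σ 0 = 1 ∨ σ 0 = -1 := by
      simp only [hσ]
      split_ifs <;> simp
    rcases hs1 with h2 | h2 <;> rcases h1 with h1 | h1 <;> rw [ht, h1, h2] <;> norm_num
  rcases lt_or_gt_of_ne hm0 with hneg | hpos
  · -- negative total
    obtain ⟨k, hk, he⟩ := z6_cover (D a) d (-t) (by rcases ht1 with h1 | h1 <;> rw [h1] <;> norm_num)
    obtain ⟨i, -, hi⟩ := ivt_aux (fun i => -S i) (by rw [hS0]; rfl) (fun i => by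
      have : -S (i + 1) - -S i = -σ i := by rw [← hSs i]; ring
      rw [this, abs_neg]
      exact hσ1 i) n (k : ℤ) (by omega) (by
        rw [hSn]; omega)
    refine ⟨z F x a b i, hT.z_adj h i, ?_⟩
    rw [hDz, ← he]
    have hi' : S i = -(k : ℤ) := by
      have : -S i = (k : ℤ) := hi
      omega
    rw [hi']
    push_cast
    ring
  · obtain ⟨k, hk, he⟩ := z6_cover (D a) d t ht1
    obtain ⟨i, -, hi⟩ := ivt_aux S hS0 (fun i => by rw [hSs i]; exact hσ1 i) n (k : ℤ) (by omega)
      (by rw [hSn]; omega)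
    refine ⟨z F x a b i, hT.z_adj h i, ?_⟩
    rw [hDz, ← he, hi]
    push_cast
    ring

end Pool.TriFold.helper22
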